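import Mathlib
import Pool.Agent.H2.V.Stm

/-!
# Module GNR of project V (helper67 for helper2)
-/

set_option autoImplicit false
set_option linter.unusedSectionVars false
set_option linter.unusedVariables false

namespace Pool.Agent.H67.V

open Polynomial Module

section

variable {H : Type} [AddCommGroup H] [Module ℚ H] {K : Type} [Field K] [Algebra ℚ K]
  (ρ : K →ₐ[ℚ] Module.End ℚ H) {k : ℕ} (x : K) (T : Module.End ℚ (Fin k → H))

lemma T_pow (hT : ∀ (v : Fin k → H) (i : Fin k), T v i =
      if (i : ℕ) = 0 then ρ x (v ⟨k - 1, by have := i.2; omega⟩)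
      else v ⟨(i : ℕ) - 1, by have := i.2; omega⟩) (j : ℕ) (hj : j ≤ k) (v : Fin k → H)
    (i : Fin k) : (T ^ j) v i = if h : (i : ℕ) < j then
      ρ x (v ⟨(i : ℕ) + k - j, by have := i.2; omega⟩)
      else v ⟨(i : ℕ) - j, by have := i.2; omega⟩ := by
  induction j generalizing i with
  | zero =>
    rw [dif_neg (by omega)]
    rfl
  | succ j ih =>
    rw [pow_succ', Module.End.mul_apply, hT]
    have hi := i.2
    by_cases h0 : (i : ℕ) = 0
    · rw [if_pos h0, dif_pos (by omega), ih (by omega), dif_neg (by simp only; omega)]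
      congr 2
      apply Fin.ext
      simp only
      omega
    · rw [if_neg h0, ih (by omega)]
      by_cases h1 : (i : ℕ) < j + 1
      · rw [dif_pos h1, dif_pos (by simp only; omega)]
        congr 2
        apply Fin.ext
        simp only
        omega
      · rw [dif_neg h1, dif_neg (by simp only; omega)]
        congr 1
        apply Fin.ext
        simp only
        omega

end

theorem t_GNR : Pool.Agent.H2.V.S_GNR := by
  intro H _ _ _ K _ _ _ ρ k x hk hirr T hT R hR
  classical
  -- the diagonal action
  let Rh : K →+* Module.End ℚ (Fin k → H) :=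
    { toFun := R
      map_one' := by
        apply LinearMap.ext
        intro v
        funext i
        rw [hR, map_one]
        rfl
      map_mul' := by
        intro a b
        apply LinearMap.ext
        intro v
        funext i
        rw [hR, map_mul, Module.End.mul_apply, Module.End.mul_apply, hR, hR]
      map_zero' := by
        apply LinearMap.ext
        intro v
        funext i
        rw [hR, map_zero]
        rfl
      map_add' := by
        intro a b
        apply LinearMap.ext
        intro v
        funext i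
        rw [hR, map_add, LinearMap.add_apply, LinearMap.add_apply, Pi.add_apply, hR, hR] }
  have hRh : ∀ a, Rh a = R a := fun a => rfl
  have hcomm : ∀ a, Commute (Rh a) T := by
    intro a
    apply LinearMap.ext
    intro v
    funext i
    rw [Module.End.mul_apply, Module.End.mul_apply, hRh, hR, hT, hT]
    by_cases h0 : (i : ℕ) = 0
    · rw [if_pos h0, if_pos h0, hR, ← Module.End.mul_apply, ← Module.End.mul_apply, ← map_mul,
        ← map_mul, mul_comm]
    · rw [if_neg h0, if_neg h0, hR]
  have hTk : T ^ k = Rh x := by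
    apply LinearMap.ext
    intro v
    funext i
    rw [T_pow ρ x T hT k le_rfl, dif_pos i.2, hRh, hR]
    congr 2
    apply Fin.ext
    simp only
    omega
  -- evaluation
  let Ev : K[X] →+* Module.End ℚ (Fin k → H) := eval₂RingHom' Rh T hcomm
  have hEv : ∀ q : K[X], Ev q = eval₂ Rh T q := fun q => rfl
  let f : K[X] := X ^ k - C x
  have hEvf : Ev f = 0 := by
    have h1 : Ev (X ^ k - C x) = (Ev X) ^ k - Ev (C x) := by rw [map_sub, map_pow]
    have h2 : Ev X = T := by rw [hEv, eval₂_X]
    have h3 : Ev (C x) = Rh x := by rw [hEv, eval₂_C]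
    change Ev (X ^ k - C x) = 0
    rw [h1, h2, h3, hTk, sub_self]
  have hfact : Fact (Irreducible f) := ⟨hirr⟩
  have hf0 : f ≠ 0 := hirr.ne_zero
  let pb := AdjoinRoot.powerBasis hf0
  have hfinK : FiniteDimensional K (AdjoinRoot f) := pb.finite
  have hfr : finrank K (AdjoinRoot f) = k := by
    rw [pb.finrank, AdjoinRoot.powerBasis_dim]
    exact natDegree_X_pow_sub_C
  have hfinQ : FiniteDimensional ℚ (AdjoinRoot f) := Module.Finite.trans K (AdjoinRoot f)
  have hfrQ : finrank ℚ (AdjoinRoot f) = k * finrank ℚ K := by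
    rw [← Module.finrank_mul_finrank ℚ K (AdjoinRoot f), hfr, mul_comm]
  obtain ⟨θ, hθ⟩ := Field.exists_primitive_element ℚ (AdjoinRoot f)
  obtain ⟨q, hq⟩ := AdjoinRoot.mk_surjective (g := f) θ
  have hint : IsIntegral ℚ θ := Algebra.IsIntegral.isIntegral θ
  refine ⟨minpoly ℚ θ, Ev q, minpoly.irreducible hint, ?_, ?_, ?_⟩
  · rw [← IntermediateField.adjoin.finrank hint, hθ, IntermediateField.finrank_top', hfrQ]
  · have h1 : aeval (Ev.toRatAlgHom q) (minpoly ℚ θ) = Ev.toRatAlgHom (aeval q (minpoly ℚ θ)) :=
      aeval_algHom_apply _ _ _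
    have h2 : aeval ((AdjoinRoot.mk f).toRatAlgHom q) (minpoly ℚ θ)
        = (AdjoinRoot.mk f).toRatAlgHom (aeval q (minpoly ℚ θ)) := aeval_algHom_apply _ _ _
    have h3 : (AdjoinRoot.mk f) (aeval q (minpoly ℚ θ)) = 0 := by
      have h4 : (AdjoinRoot.mk f).toRatAlgHom q = θ := hq
      rw [h4, minpoly.aeval] at h2
      exact h2.symm
    rw [AdjoinRoot.mk_eq_zero] at h3
    obtain ⟨g, hg⟩ := h3
    have h5 : Ev (aeval q (minpoly ℚ θ)) = 0 := by rw [hg, map_mul, hEvf, zero_mul]
    exact h1.trans h5
  · rw [hEv, eval₂_eq_sum_range]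
    refine Subalgebra.sum_mem _ fun i _ => Subalgebra.mul_mem _ ?_ (Subalgebra.pow_mem _ ?_ _)
    · exact Algebra.subset_adjoin (Set.mem_insert_of_mem _ ⟨_, rfl⟩)
    · exact Algebra.subset_adjoin (Set.mem_insert _ _)

end Pool.Agent.H67.V
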